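import Pool.Agent.FHQ.StmtsP

/-! Squad FHQ, row UBS: substitution in finite unions of boxes. -/

open scoped BigOperators

noncomputable section

namespace Pool.Agent.FHQ.H6

/-- substitution in a box -/
def sub (rsb : RsbStmt) (psb : PsbStmt) {r s : ℕ} (f : Fin r → MvPolynomial (Fin s) ℤ)
    (a : Fin r → Fin s → ℤ) (b : Fin r → ℤ) (X : Box r) : Box s where
  R := fun p x => X.R p (fun i => MvPolynomial.aeval x (f i))
  B := fun g => X.B (fun i => ∑ j, a i j * g j + b i)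
  hR := rsb r s X.R X.hR f
  hB := psb r s X.B X.hB a b

theorem ubs (rsb : RsbStmt) (psb : PsbStmt) : UbsStmt := by
  intro r s C hC f a b
  obtain ⟨L, hL⟩ := hC
  refine ⟨L.map (sub rsb psb f a b), ?_⟩
  intro p x g
  refine (hL p _ _).trans ?_
  constructor
  · rintro ⟨X, hX, h1, h2⟩
    exact ⟨_, List.mem_map.2 ⟨X, hX, rfl⟩, h1, h2⟩
  · rintro ⟨Y, hY, h1, h2⟩
    obtain ⟨X, hX, rfl⟩ := List.mem_map.1 hY
    exact ⟨X, hX, h1, h2⟩

end Pool.Agent.FHQ.H6
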